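import Pool.Agent.Lib.MP_f0e889_al.Growth
import Pool.Agent.Lib.MP_f0e889_al.One

/-!
# No quasi-isometry between `Γ` and `G` respects the fibres

`Γ = F' ⋊ ℤ`, `G = F ⋊ ℤ` for the automorphisms `a ↦ b`, `b ↦ c`, `c ↦ ab` (and `d ↦ ea`, `e ↦ ed`).
-/

namespace Pool.Agent.Results.MP_f0e889_al.FibreRespecting

open MTorus

private theorem not_ce (f : Gam → GG) (h : GG → Gam) (R : ℤ) :
    ¬ CE (sd (FreeGroup (Fin 3)) phi3) (sd (FreeGroup (Fin 5)) phi5) f h R := by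
  intro c
  have hi3 : ((sd (FreeGroup (Fin 3)) phi3).θ)⁻¹ = phi3 := inv_inv phi3
  have hi5 : ((sd (FreeGroup (Fin 5)) phi5).θ)⁻¹ = phi5 := inv_inv phi5
  have hp5 : ∀ r : ℤ, (sd (FreeGroup (Fin 5)) phi5).θ ^ r = phi5 ^ (-r) := fun r => inv_zpow' phi5 r
  refine noCE c (wt_len (fun _ => 1)) lip3 (FreeGroup.of 0) 1 one_pos growth3
    (wt_len ![4, 3, 3, 64, 41]) (wt_gen _ (by decide)) step5'
    (wt_len ![3, 3, 4, 9, 12]) (wt_gen _ (by decide)) (fun y => ?_)
    W3_len ?_ (FreeGroup.of 4) (5 / 8) (by norm_num) (fun n => ?_) (fun n => ?_)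
    (wt_len ![9, 12, 16]) (wt_gen _ (by decide)) (fun x => ?_)
  · rw [hi5]
    exact step5 y
  · obtain ⟨L, hL, h⟩ := W3_lip
    refine ⟨L, hL, fun x => ⟨(h x).2, ?_⟩⟩
    rw [hi5]
    exact (h x).1
  · rw [hp5, neg_neg]
    exact W3_grow n
  · rw [hp5]
    exact W3_grow' n
  · rw [hi3]
    exact step3 x

/-- Word metrics of arbitrary finite generating sets `S` of `Γ` and `T` of `G`.  There is no quasi-isometry `Γ → G`
which maps every coset of `F'` into a neighbourhood of uniform size of a coset of `F`, and there is no quasi-isometry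
`G → Γ` which maps every coset of `F` into a neighbourhood of uniform size of a coset of `F'`. -/
theorem result (S : Set Gam) (T : Set GG) (hSf : S.Finite) (hTf : T.Finite) (hS : Subgroup.closure S = ⊤)
    (hT : Subgroup.closure T = ⊤) :
    (¬ ∃ f : Gam → GG, IsQI S T f ∧
      CosetsIntoCosets (fibre (FreeGroup (Fin 3)) phi3) (fibre (FreeGroup (Fin 5)) phi5) T f) ∧
    ¬ ∃ f : GG → Gam, IsQI T S f ∧
      CosetsIntoCosets (fibre (FreeGroup (Fin 5)) phi5) (fibre (FreeGroup (Fin 3)) phi3) S f := by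
  constructor
  · rintro ⟨f, h1, h2⟩
    obtain ⟨h, R, c⟩ := CE1.of_qi (sd (FreeGroup (Fin 3)) phi3) (sd (FreeGroup (Fin 5)) phi5) (mem_fibre _ _)
      (mem_fibre _ _) hS hSf hT hTf h1 h2
    obtain ⟨R', c'⟩ := c.toCE lip5 (FreeGroup.of 0) one_pos (by norm_num) growth3
    exact not_ce f h R' c'
  · rintro ⟨f, h1, h2⟩
    obtain ⟨h, R, c⟩ := CE1.of_qi (sd (FreeGroup (Fin 5)) phi5) (sd (FreeGroup (Fin 3)) phi3) (mem_fibre _ _)
      (mem_fibre _ _) hT hTf hS hSf h1 h2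
    obtain ⟨R', c'⟩ := c.toCE lip3 (FreeGroup.of 4) (by norm_num : (0 : ℝ) < 5 / 8) (by norm_num : (1 : ℝ) < 8 / 5)
      (fun n => by
        have e : (sd (FreeGroup (Fin 5)) phi5).θ ^ (n : ℤ) = phi5 ^ (-(n : ℤ)) := inv_zpow' phi5 (n : ℤ)
        rw [e]
        exact (W3_grow' n).trans (W3_le _))
    exact not_ce h f R' c'.symm

end Pool.Agent.Results.MP_f0e889_al.FibreRespecting
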